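import Mathlib
import Pool.Agent.Helper180.Defs
import Pool.Agent.Helper180.Final

namespace Pool.Agent.Results.MP_32acdc_lc.Undecidable

open Pool.Agent.Helper180.Defs

/-- sanity check: the Goedel numbering is injective -/
theorem code_injective : Function.Injective Formula.code :=
  fun φ ψ h => Pool.Agent.Helper180.Final.code_injective φ ψ h

/-- sanity check: there are nonabelian groups acting freely on a `Λ`-tree -/
theorem exists_nonabelian : ∃ (G : Type) (_ : Group G), TreeFree G ∧ ∃ a b : G, a * b ≠ b * a := by
  refine ⟨Pool.Agent.Helper180.Words.GJ Pool.Agent.Helper180.Sound.JE, inferInstance,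
    Pool.Agent.Helper180.Words.treeFree_GJ _,
    Pool.Agent.Helper180.Sound.s (FreeGroup.of 0), Pool.Agent.Helper180.Sound.s (FreeGroup.of 1),
    ?_⟩
  rw [← map_mul, ← map_mul]
  intro h
  have h1 := Pool.Agent.Helper180.Words.cs_inj _ h
  exact absurd (congrArg FreeGroup.toWord h1) (by decide)

/-- The elementary theory of the class of all groups acting freely on some `Λ`-tree (for some
ordered abelian group `Λ`) is undecidable. -/
theorem result : ¬ IsDecidable theoryTreeFree :=
  Pool.Agent.Helper180.Final.undecidable

end Pool.Agent.Results.MP_32acdc_lc.Undecidable
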